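import Mathlib

set_option autoImplicit false

namespace Pool.Agent.H58_bda8f3

open MonoidAlgebra

variable {k G : Type} [Field k] [Group G]

/-- `H` acts trivially on the `k[G]`-module `X`. -/
def Triv (H : Subgroup G) (X : Type) [AddCommGroup X] [Module (MonoidAlgebra k G) X] : Prop :=
  ∀ h ∈ H, ∀ x : X, MonoidAlgebra.of k G h • x = x

section
variable {X : Type} [AddCommGroup X] [Module k X] [Module (MonoidAlgebra k G) X]
  [IsScalarTower k (MonoidAlgebra k G) X]

omit [Module k X] [IsScalarTower k (MonoidAlgebra k G) X] in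
lemma of_mul_smul (g h : G) (x : X) : of k G (g * h) • x = of k G g • of k G h • x := by
  rw [map_mul, mul_smul]

omit [Module k X] [IsScalarTower k (MonoidAlgebra k G) X] in
lemma of_one_smul (x : X) : of k G (1 : G) • x = x := by
  rw [map_one, one_smul]

omit [Module k X] [IsScalarTower k (MonoidAlgebra k G) X] in
/-- extension of trivial by trivial is trivial for elements of order prime to the
characteristic. -/
lemma triv_of_sub_quot (H : Subgroup G) (hH : ∀ h ∈ H, ∃ n : ℕ, (n : k) ≠ 0 ∧ h ^ n = 1)
    (Y : Submodule (MonoidAlgebra k G) X) (h1 : Triv (k := k) H Y) (h2 : Triv (k := k) H (X ⧸ Y)) :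
    Triv (k := k) H X := by
  intro h hh x
  obtain ⟨n, hn, hn1⟩ := hH h hh
  set d : X := of k G h • x - x with hd
  have hdY : d ∈ Y := by
    have := h2 h hh (Submodule.Quotient.mk x)
    rw [← Submodule.Quotient.mk_smul, Submodule.Quotient.eq] at this
    exact this
  have hdd : of k G h • d = d := by
    have := h1 h hh ⟨d, hdY⟩
    exact congrArg Subtype.val this
  have hpow : ∀ j : ℕ, of k G (h ^ j) • x = x + (j : MonoidAlgebra k G) • d := by
    intro j
    induction j with
    | zero => rw [pow_zero, of_one_smul]; simp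
    | succ j ih =>
      have e : of k G h • x = x + d := by rw [hd]; abel
      rw [pow_succ', of_mul_smul, ih, smul_add, e, ← mul_smul, ← (Nat.cast_commute j _).eq,
        mul_smul, hdd, Nat.cast_succ, add_smul, one_smul, add_assoc, add_comm d]
  have h0 := hpow n
  rw [hn1, of_one_smul] at h0
  have h3 : (n : MonoidAlgebra k G) • d = 0 := by
    have := congrArg (fun z => z - x) h0
    simpa using this.symm
  have h4 : (algebraMap k (MonoidAlgebra k G) (n : k)⁻¹) * (n : MonoidAlgebra k G) = 1 := by
    rw [← map_natCast (algebraMap k (MonoidAlgebra k G)), ← map_mul, inv_mul_cancel₀ hn, map_one]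
  have h5 : d = 0 := by
    rw [← one_smul (MonoidAlgebra k G) d, ← h4, mul_smul, h3, smul_zero]
  rw [hd, sub_eq_zero] at h5
  exact h5

end

/-- All simple modules of dimension less than `f` are trivial for `H`. -/
def SimpleTriv (k : Type) [Field k] (H : Subgroup G) (f : ℕ) : Prop :=
  ∀ (X : Type) [AddCommGroup X] [Module k X] [Module (MonoidAlgebra k G) X]
    [IsScalarTower k (MonoidAlgebra k G) X], IsSimpleModule (MonoidAlgebra k G) X →
    Module.finrank k X < f → Triv (k := k) H X

theorem triv_of_finrank_lt (H : Subgroup G) (hH : ∀ h ∈ H, ∃ n : ℕ, (n : k) ≠ 0 ∧ h ^ n = 1)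
    (f : ℕ) (hf : SimpleTriv k H f) (m : ℕ) :
    ∀ (X : Type) [AddCommGroup X] [Module k X] [Module (MonoidAlgebra k G) X]
    [IsScalarTower k (MonoidAlgebra k G) X] [FiniteDimensional k X],
    Module.finrank k X ≤ m → Module.finrank k X < f → Triv (k := k) H X := by
  induction m with
  | zero =>
    intro X _ _ _ _ _ h0 _
    have : Subsingleton X := Module.finrank_zero_iff.mp (by omega : Module.finrank k X = 0)
    intro h _ x
    exact Subsingleton.elim _ _
  | succ m ih =>
    intro X _ _ _ _ _ hm hlt
    by_cases hs : Nontrivial X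
    · by_cases hsim : IsSimpleModule (MonoidAlgebra k G) X
      · exact hf X hsim hlt
      · obtain ⟨Y, hY0, hY1⟩ : ∃ Y : Submodule (MonoidAlgebra k G) X, Y ≠ ⊥ ∧ Y ≠ ⊤ := by
          by_contra hcon
          push Not at hcon
          apply hsim
          rw [isSimpleModule_iff]
          exact { toNontrivial := inferInstance, eq_bot_or_eq_top := fun Y => by
                    by_cases h : Y = ⊥
                    · exact Or.inl h
                    · exact Or.inr (hcon Y h) }
        have hY0' : Y.restrictScalars k ≠ ⊥ := by simpa using hY0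
        have hY1' : Y.restrictScalars k ≠ ⊤ := by simpa using hY1
        have e1 : Module.finrank k Y < Module.finrank k X :=
          Submodule.finrank_lt (s := Y.restrictScalars k) hY1'
        have e2 : 0 < Module.finrank k (Y.restrictScalars k) := by
          rw [Module.finrank_pos_iff]
          exact Submodule.nontrivial_iff_ne_bot.mpr hY0'
        have e3 := Submodule.finrank_quotient_add_finrank (Y.restrictScalars k)
        have e4 : Module.finrank k (X ⧸ Y) = Module.finrank k (X ⧸ Y.restrictScalars k) :=
          (Submodule.Quotient.restrictScalarsEquiv k Y).symm.finrank_eq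
        have : FiniteDimensional k Y := inferInstanceAs (FiniteDimensional k (Y.restrictScalars k))
        have : FiniteDimensional k (X ⧸ Y) :=
          Module.Finite.equiv (Submodule.Quotient.restrictScalarsEquiv k Y)
        refine triv_of_sub_quot H hH Y (ih Y ?_ ?_) (ih (X ⧸ Y) ?_ ?_)
        all_goals omega
    · have : Subsingleton X := not_nontrivial_iff_subsingleton.mp hs
      intro h _ x
      exact Subsingleton.elim _ _

/-- The same conclusion in dimension `f` if the module is not simple. -/
theorem triv_of_submodule (H : Subgroup G) (hH : ∀ h ∈ H, ∃ n : ℕ, (n : k) ≠ 0 ∧ h ^ n = 1)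
    (f : ℕ) (hf : SimpleTriv k H f) (X : Type) [AddCommGroup X] [Module k X]
    [Module (MonoidAlgebra k G) X]
    [IsScalarTower k (MonoidAlgebra k G) X] [FiniteDimensional k X]
    (hX : Module.finrank k X ≤ f) (Y : Submodule (MonoidAlgebra k G) X) (hY0 : Y ≠ ⊥)
    (hY1 : Y ≠ ⊤) : Triv (k := k) H X := by
  have hY0' : Y.restrictScalars k ≠ ⊥ := by simpa using hY0
  have hY1' : Y.restrictScalars k ≠ ⊤ := by simpa using hY1
  have e1 : Module.finrank k Y < Module.finrank k X :=
    Submodule.finrank_lt (s := Y.restrictScalars k) hY1'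
  have e2 : 0 < Module.finrank k (Y.restrictScalars k) := by
    rw [Module.finrank_pos_iff]
    exact Submodule.nontrivial_iff_ne_bot.mpr hY0'
  have e3 := Submodule.finrank_quotient_add_finrank (Y.restrictScalars k)
  have e4 : Module.finrank k (X ⧸ Y) = Module.finrank k (X ⧸ Y.restrictScalars k) :=
    (Submodule.Quotient.restrictScalarsEquiv k Y).symm.finrank_eq
  have : FiniteDimensional k Y := inferInstanceAs (FiniteDimensional k (Y.restrictScalars k))
  have : FiniteDimensional k (X ⧸ Y) :=
    Module.Finite.equiv (Submodule.Quotient.restrictScalarsEquiv k Y)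
  exact triv_of_sub_quot H hH Y (triv_of_finrank_lt H hH f hf _ Y le_rfl (by omega))
    (triv_of_finrank_lt H hH f hf _ (X ⧸ Y) le_rfl (by omega))

/-- The permutation representation on functions. -/
def permRep (k G Ω : Type) [Field k] [Group G] [MulAction G Ω] : Representation k G (Ω → k) where
  toFun g :=
    { toFun := fun φ x => φ (g⁻¹ • x)
      map_add' := fun _ _ => rfl
      map_smul' := fun _ _ => rfl }
  map_one' := by
    ext φ x
    simp
  map_mul' g h := by
    apply LinearMap.ext
    intro φ
    funext x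
    show φ ((g * h)⁻¹ • x) = φ (h⁻¹ • g⁻¹ • x)
    rw [mul_inv_rev, mul_smul]

/-- `H` acts trivially on a `G`-set with at most `f` elements. -/
theorem triv_perm (H : Subgroup G) (hH : ∀ h ∈ H, ∃ n : ℕ, (n : k) ≠ 0 ∧ h ^ n = 1)
    (f : ℕ) (hf : SimpleTriv k H f) (Ω : Type) [Finite Ω] [MulAction G Ω]
    (hΩ : Nat.card Ω ≤ f) : ∀ h ∈ H, ∀ x : Ω, h • x = x := by
  classical
  intro h hh x
  by_cases hsub : Subsingleton Ω
  · exact Subsingleton.elim _ _
  rw [not_subsingleton_iff_nontrivial] at hsub
  have := Fintype.ofFinite Ω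
  let π := permRep k G Ω
  have hact : ∀ (g : G) (v : Ω → k),
      of k G g • (π.asModuleEquiv.symm v) = π.asModuleEquiv.symm (π g v) := by
    intro g v
    exact (Representation.asModuleEquiv_symm_map_rho π g v).symm
  let W0 : Submodule k (Ω → k) :=
    { carrier := {φ | ∀ x y, φ x = φ y}
      zero_mem' := fun x y => rfl
      add_mem' := fun {a b} ha hb x y => by
        rw [Pi.add_apply, Pi.add_apply, ha x y, hb x y]
      smul_mem' := fun c a ha x y => by
        rw [Pi.smul_apply, Pi.smul_apply, ha x y] }
  let W : Submodule k π.asModule := W0.comap π.asModuleEquiv.toLinearMap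
  have hWmem : ∀ v : Ω → k, π.asModuleEquiv.symm v ∈ W ↔ v ∈ W0 := by
    intro v
    show π.asModuleEquiv (π.asModuleEquiv.symm v) ∈ W0 ↔ v ∈ W0
    rw [LinearEquiv.apply_symm_apply]
  let Y : Submodule (MonoidAlgebra k G) π.asModule := MonoidAlgebra.submoduleOfSMulMem W (by
    intro g v hv
    obtain ⟨u, rfl⟩ := π.asModuleEquiv.symm.surjective v
    rw [hact]
    rw [hWmem] at hv ⊢
    intro x y
    exact hv _ _)
  have hYmem : ∀ v : Ω → k, π.asModuleEquiv.symm v ∈ Y ↔ v ∈ W0 := hWmem
  obtain ⟨a, b, hab⟩ := exists_pair_ne Ω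
  have hY0 : Y ≠ ⊥ := by
    intro hbot
    have hc : π.asModuleEquiv.symm (fun _ : Ω => (1 : k)) ∈ Y := by
      rw [hYmem]
      intro x y
      rfl
    rw [hbot, Submodule.mem_bot, LinearEquiv.map_eq_zero_iff] at hc
    have := congrFun hc a
    exact one_ne_zero (α := k) this
  have hY1 : Y ≠ ⊤ := by
    intro htop
    have hc : π.asModuleEquiv.symm (Pi.single a (1 : k)) ∈ Y := by rw [htop]; trivial
    rw [hYmem] at hc
    have h1 := hc a b
    rw [Pi.single_eq_same, Pi.single_eq_of_ne' hab] at h1
    exact one_ne_zero h1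
  have hfr : Module.finrank k π.asModule ≤ f := by
    have : Module.finrank k π.asModule = Nat.card Ω := by
      rw [π.asModuleEquiv.finrank_eq, Module.finrank_pi, Nat.card_eq_fintype_card]
    omega
  have := triv_of_submodule H hH f hf π.asModule hfr Y hY0 hY1
  have h2 := this h hh (π.asModuleEquiv.symm (Pi.single (h • x) (1 : k)))
  rw [hact] at h2
  have h3 := congrFun (π.asModuleEquiv.symm.injective h2) x
  by_contra hne
  have h4 : (π h (Pi.single (h • x) (1 : k))) x = (Pi.single (h • x) (1 : k) : Ω → k) (h⁻¹ • x) := rfl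
  -- use the value at `h • (h • x)`
  have h5 := congrFun (π.asModuleEquiv.symm.injective h2) (h • h • x)
  have h6 : (π h (Pi.single (h • x) (1 : k))) (h • h • x) =
    (Pi.single (h • x) (1 : k) : Ω → k) (h⁻¹ • h • h • x) := rfl
  rw [h6, inv_smul_smul, Pi.single_eq_same, Pi.single_eq_of_ne] at h5
  · exact one_ne_zero h5
  · intro h7
    exact hne (smul_left_cancel h h7)

end Pool.Agent.H58_bda8f3
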