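import Pool.Agent.H58_bda8f3.Main

set_option autoImplicit false

namespace Pool.Agent.H58_bda8f3

open MonoidAlgebra
open scoped commutatorElement

variable {k G : Type} [Field k] [Group G]

lemma simple_of_finrank_one (X : Type) [AddCommGroup X] [Module k X]
    [Module (MonoidAlgebra k G) X] [IsScalarTower k (MonoidAlgebra k G) X]
    (h : Module.finrank k X = 1) : IsSimpleModule (MonoidAlgebra k G) X := by
  have hnt : Nontrivial X := Module.nontrivial_of_finrank_pos (R := k) (by omega)
  have hs : IsSimpleOrder (Submodule k X) := (is_simple_module_of_finrank_eq_one h)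
  rw [isSimpleModule_iff]
  exact { toNontrivial := inferInstance, eq_bot_or_eq_top := fun Y => by
            rcases hs.eq_bot_or_eq_top (Y.restrictScalars k) with h1 | h1
            · left; simpa using h1
            · right; simpa using h1 }

lemma one_mem_simpleDims : 1 ∈ simpleDims k G := by
  refine ⟨(Representation.trivial k G k).asModule, inferInstance, inferInstance, inferInstance,
    inferInstance, ?_, ?_⟩
  · apply simple_of_finrank_one
    rw [(Representation.trivial k G k).asModuleEquiv.finrank_eq, Module.finrank_self]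
  · rw [(Representation.trivial k G k).asModuleEquiv.finrank_eq, Module.finrank_self]

lemma simpleDims_subset [Finite G] :
    simpleDims k G ⊆ Set.Icc 1 (Module.finrank k (MonoidAlgebra k G)) := by
  rintro d ⟨M, _, _, _, _, hM, rfl⟩
  have := simple_fd (k := k) (G := G) M hM
  exact ⟨this.2.2, this.2.1⟩

lemma simpleDims_finite [Finite G] : (simpleDims k G).Finite :=
  (Set.finite_Icc _ _).subset simpleDims_subset

/-- number of dimensions up to `d` -/
noncomputable def cnt (k G : Type) [Field k] [Group G] (d : ℕ) : ℕ :=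
  (simpleDims k G ∩ Set.Iic d).ncard

lemma cnt_zero [Finite G] : cnt k G 0 = 0 := by
  unfold cnt
  rw [Set.ncard_eq_zero (simpleDims_finite.subset Set.inter_subset_left)]
  ext x
  simp only [Set.mem_inter_iff, Set.mem_Iic, Set.mem_empty_iff_false, iff_false, not_and]
  intro hx hx0
  have := (simpleDims_subset hx).1
  omega

lemma cnt_succ [Finite G] (d : ℕ) (h : d + 1 ∈ simpleDims k G) :
    cnt k G (d + 1) = cnt k G d + 1 := by
  unfold cnt
  have : simpleDims k G ∩ Set.Iic (d + 1) = insert (d + 1) (simpleDims k G ∩ Set.Iic d) := by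
    ext x
    simp only [Set.mem_inter_iff, Set.mem_Iic, Set.mem_insert_iff]
    constructor
    · rintro ⟨h1, h2⟩
      by_cases hx : x = d + 1
      · exact Or.inl hx
      · exact Or.inr ⟨h1, by omega⟩
    · rintro (rfl | ⟨h1, h2⟩)
      · exact ⟨h, le_rfl⟩
      · exact ⟨h1, by omega⟩
  rw [this, Set.ncard_insert_of_notMem _ (simpleDims_finite.subset Set.inter_subset_left)]
  rintro ⟨_, h2⟩
  simp at h2

lemma cnt_mono [Finite G] {d e : ℕ} (h : d ≤ e) : cnt k G d ≤ cnt k G e := by
  unfold cnt
  apply Set.ncard_le_ncard _ (simpleDims_finite.subset Set.inter_subset_left)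
  exact Set.inter_subset_inter_right _ (Set.Iic_subset_Iic.mpr h)

lemma cnt_pos [Finite G] {d : ℕ} (h : 1 ≤ d) : 1 ≤ cnt k G d := by
  have h1 : cnt k G 1 = cnt k G 0 + 1 := cnt_succ 0 one_mem_simpleDims
  have h2 := cnt_mono (k := k) (G := G) h
  omega

theorem simpleTriv_D [IsAlgClosed k] [Finite G] (N : Subgroup G) [N.Normal]
    (hnil : ∃ c, N.lowerCentralSeries c = ⊥)
    (hN : ∀ h ∈ N, ∃ n : ℕ, (n : k) ≠ 0 ∧ h ^ n = 1) (d : ℕ) :
    SimpleTriv k (D N (2 * cnt k G d - 1)) (d + 1) := by
  induction d with
  | zero =>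
    intro X _ _ _ _ hX hlt
    have := (simple_fd (k := k) (G := G) X hX).2.2
    omega
  | succ d ih =>
    intro X _ _ _ _ hX hlt
    have hfd := simple_fd (k := k) (G := G) X hX
    have := hfd.1
    by_cases h1 : Module.finrank k X < d + 1
    · have h2 := ih X hX h1
      intro h hh x
      refine h2 h (D_antitone N ?_ hh) x
      have := cnt_mono (k := k) (G := G) (Nat.le_add_right d 1)
      omega
    · have h2 : Module.finrank k X = d + 1 := by omega
      have hmem : d + 1 ∈ simpleDims k G := ⟨X, inferInstance, inferInstance, inferInstance, inferInstance, hX, h2⟩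
      rw [cnt_succ d hmem]
      by_cases hd : d = 0
      · subst hd
        rw [cnt_zero]
        exact comm_triv_one N X h2
      · have hc : 1 ≤ cnt k G d := cnt_pos (by omega)
        have he : 2 * (cnt k G d + 1) - 1 = (2 * cnt k G d - 1) + 1 + 1 := by omega
        rw [he]
        refine step (D N (2 * cnt k G d - 1)) (D_nil N hnil _)
          (fun h hh => hN h (D_antitone N (Nat.zero_le _) hh)) (d + 1) ih X h2.le

/-- The main bound for nilpotent normal subgroups of order prime to the characteristic. -/
theorem D_eq_bot [IsAlgClosed k] [Finite G] (N : Subgroup G) [N.Normal]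
    (hnil : ∃ c, N.lowerCentralSeries c = ⊥)
    (hN : ∀ h ∈ N, ∃ n : ℕ, (n : k) ≠ 0 ∧ h ^ n = 1) :
    D N (2 * (simpleDims k G).ncard - 1) = ⊥ := by
  set e := Module.finrank k (MonoidAlgebra k G) with he
  have h1 := simpleTriv_D N hnil hN e
  have h2 : cnt k G e = (simpleDims k G).ncard := by
    unfold cnt
    congr 1
    rw [Set.inter_eq_left]
    exact fun x hx => (simpleDims_subset hx).2
  rw [h2] at h1
  have h3 := triv_of_finrank_lt (D N (2 * (simpleDims k G).ncard - 1))
    (fun h hh => hN h (D_antitone N (Nat.zero_le _) hh)) (e + 1) h1 e (MonoidAlgebra k G)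
    le_rfl (Nat.lt_succ_self _)
  rw [eq_bot_iff]
  intro h hh
  have h4 := h3 h hh 1
  rw [smul_eq_mul, mul_one] at h4
  rw [Subgroup.mem_bot]
  exact MonoidAlgebra.of_injective (h4.trans (map_one _).symm)

theorem derivedSeries_eq_bot [IsAlgClosed k] [Finite G] (N : Subgroup G) [N.Normal]
    (hnil : Group.IsNilpotent N)
    (hN : ∀ h ∈ N, ∃ n : ℕ, (n : k) ≠ 0 ∧ h ^ n = 1) :
    derivedSeries N (2 * (simpleDims k G).ncard - 1) = ⊥ := by
  have h1 := D_eq_bot N ((Subgroup.isNilpotent_iff_lowerCentralSeries N).mp hnil) hN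
  rw [← D_map, Subgroup.map_eq_bot_iff, Subgroup.ker_subtype] at h1
  exact eq_bot_iff.mpr h1

/-- inflation of simple modules -/
lemma simpleDims_quotient (O : Subgroup G) [O.Normal] :
    simpleDims k (G ⧸ O) ⊆ simpleDims k G := by
  rintro d ⟨M, _, _, _, _, hM, rfl⟩
  let φ : MonoidAlgebra k G →ₐ[k] MonoidAlgebra k (G ⧸ O) :=
    MonoidAlgebra.mapDomainAlgHom k k (QuotientGroup.mk' O)
  have hφ : Function.Surjective φ := by
    intro c
    induction c using MonoidAlgebra.induction_on with
    | of q =>
      obtain ⟨g, rfl⟩ := QuotientGroup.mk'_surjective O q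
      refine ⟨of k G g, ?_⟩
      simp [φ]
    | add a b ha hb =>
      obtain ⟨a', rfl⟩ := ha
      obtain ⟨b', rfl⟩ := hb
      exact ⟨a' + b', map_add _ _ _⟩
    | smul r a ha =>
      obtain ⟨a', rfl⟩ := ha
      exact ⟨r • a', map_smul _ _ _⟩
  let _ : Module (MonoidAlgebra k G) M := Module.compHom M φ.toRingHom
  have hsm : ∀ (r : MonoidAlgebra k G) (m : M), r • m = φ r • m := fun r m => rfl
  refine ⟨M, inferInstance, inferInstance, inferInstance, ?_, ?_, rfl⟩
  · refine ⟨fun c r m => ?_⟩
    rw [hsm, hsm, map_smul, smul_assoc]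
  · have hnt := IsSimpleModule.nontrivial (MonoidAlgebra k (G ⧸ O)) M
    rw [isSimpleModule_iff]
    have hord := (isSimpleModule_iff _ _).mp hM
    exact { toNontrivial := inferInstance, eq_bot_or_eq_top := fun Y => by
              let Y' : Submodule (MonoidAlgebra k (G ⧸ O)) M :=
                { Y.toAddSubmonoid with
                  smul_mem' := fun c x hx => by
                    obtain ⟨r, rfl⟩ := hφ c
                    exact Y.smul_mem r hx }
              rcases hord.eq_bot_or_eq_top Y' with h1 | h1
              · left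
                ext x
                have : x ∈ Y' ↔ x ∈ (⊥ : Submodule (MonoidAlgebra k (G ⧸ O)) M) := by rw [h1]
                rw [Submodule.mem_bot] at this ⊢
                exact this
              · right
                ext x
                have : x ∈ Y' ↔ x ∈ (⊤ : Submodule (MonoidAlgebra k (G ⧸ O)) M) := by rw [h1]
                exact ⟨fun _ => trivial, fun _ => this.mpr trivial⟩ }

/-- A nilpotent normal subgroup of a finite group without nontrivial normal `p`-subgroups has order
prime to `p`. -/
lemma not_dvd_card {p : ℕ} [Fact p.Prime] [Finite G] (N : Subgroup G) [N.Normal]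
    (hnil : Group.IsNilpotent N)
    (hO : ∀ Q : Subgroup G, Q.Normal → IsPGroup p Q → Q = ⊥) : ¬ p ∣ Nat.card N := by
  intro hdvd
  obtain ⟨P⟩ : Nonempty (Sylow p N) := inferInstance
  have hPn : (P : Subgroup N).Normal := inferInstance
  have hPc : (P : Subgroup N).Characteristic := Sylow.characteristic_of_normal P hPn
  have h1 := hO ((P : Subgroup N).map N.subtype) inferInstance (P.isPGroup'.map _)
  rw [Subgroup.map_eq_bot_iff, Subgroup.ker_subtype, le_bot_iff] at h1
  have h2 := P.dvd_card_of_dvd_card hdvd
  rw [h1, Subgroup.card_bot] at h2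
  exact (Fact.out : p.Prime).one_lt.ne' (Nat.dvd_one.mp h2)

theorem main (p : ℕ) [Fact p.Prime] (G : Type) [Group G] [Finite G] (k : Type) [Field k]
    [IsAlgClosed k] [CharP k p] (O : Subgroup G) [O.Normal] (hO : IsPGroup p O)
    (hOmax : ∀ Q : Subgroup G, Q.Normal → IsPGroup p Q → Q ≤ O)
    (N : Subgroup (G ⧸ O)) [N.Normal] (hN : Group.IsNilpotent N) :
    derivedSeries N (2 * (simpleDims k G).ncard - 1) = ⊥ := by
  have hO' : ∀ Q : Subgroup (G ⧸ O), Q.Normal → IsPGroup p Q → Q = ⊥ := by
    intro Q hQ hQp
    have h1 := hOmax (Q.comap (QuotientGroup.mk' O)) inferInstance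
      (hQp.comap_of_ker_isPGroup _ (by rw [QuotientGroup.ker_mk']; exact hO))
    rw [eq_bot_iff]
    intro q hq
    obtain ⟨g, rfl⟩ := QuotientGroup.mk'_surjective O q
    have h2 : g ∈ O := h1 hq
    rw [Subgroup.mem_bot]
    exact (QuotientGroup.eq_one_iff g).mpr h2
  have hcard := not_dvd_card (p := p) N hN hO'
  have h1 := derivedSeries_eq_bot (k := k) N hN (by
    intro h hh
    refine ⟨Nat.card N, ?_, ?_⟩
    · rw [Ne, CharP.cast_eq_zero_iff k p]
      exact hcard
    · have := pow_card_eq_one' (x := (⟨h, hh⟩ : N))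
      exact congrArg Subtype.val this)
  rw [eq_bot_iff, ← h1]
  apply derivedSeries_antitone
  have := Set.ncard_le_ncard (simpleDims_quotient (k := k) O) simpleDims_finite
  omega

end Pool.Agent.H58_bda8f3
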