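import Pool.Agent.H58_bda8f3.Weights

set_option autoImplicit false

namespace Pool.Agent.H58_bda8f3

open MonoidAlgebra
open scoped commutatorElement

variable {k G : Type} [Field k] [Group G]

/-- A purely group theoretic lemma: if every normal subgroup `A ≤ M` of `G` that is abelian modulo
`K` is central in `M` modulo `K`, then `M'' ≤ K`. -/
theorem second_commutator_le (M K : Subgroup G) [M.Normal] [K.Normal]
    (hnil : ∃ c, M.lowerCentralSeries c ≤ K)
    (h : ∀ A : Subgroup G, A.Normal → A ≤ M → ⁅A, A⁆ ≤ K → ⁅A, M⁆ ≤ K) :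
    ⁅⁅M, M⁆, ⁅M, M⁆⁆ ≤ K := by
  classical
  have hK : ∀ H : Subgroup G, H ≤ K ↔ H.map (QuotientGroup.mk' K) = ⊥ := by
    intro H
    rw [Subgroup.map_eq_bot_iff, QuotientGroup.ker_mk']
  have three : ∀ H1 H2 H3 : Subgroup G, ⁅⁅H2, H3⁆, H1⁆ ≤ K → ⁅⁅H3, H1⁆, H2⁆ ≤ K →
      ⁅⁅H1, H2⁆, H3⁆ ≤ K := by
    intro H1 H2 H3 h1 h2
    rw [hK, Subgroup.map_commutator, Subgroup.map_commutator] at h1 h2 ⊢
    exact Subgroup.commutator_commutator_eq_bot_of_rotate h1 h2
  set c := Nat.find hnil with hc
  have hc1 : M.lowerCentralSeries c ≤ K := Nat.find_spec hnil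
  by_cases hc2 : c ≤ 2
  · have h1 : M.lowerCentralSeries 2 ≤ K := (M.lowerCentralSeries_antitone hc2).trans hc1
    refine le_trans ?_ h1
    rw [Subgroup.lowerCentralSeries_succ, Subgroup.lowerCentralSeries_succ,
      Subgroup.lowerCentralSeries_zero]
    exact Subgroup.commutator_mono le_rfl (Subgroup.commutator_le_left M M)
  · exfalso
    obtain ⟨e, he⟩ : ∃ e, c = e + 3 := ⟨c - 3, by omega⟩
    have hA1 : M.lowerCentralSeries (e + 1) ≤ ⁅M, M⁆ := by
      have := M.lowerCentralSeries_antitone (show 1 ≤ e + 1 by omega)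
      rwa [Subgroup.lowerCentralSeries_succ M 0, Subgroup.lowerCentralSeries_zero] at this
    have hA2 : M.lowerCentralSeries (e + 1) ≤ M := by
      have := M.lowerCentralSeries_antitone (show 0 ≤ e + 1 by omega)
      rwa [Subgroup.lowerCentralSeries_zero] at this
    have hc3 : ⁅⁅M.lowerCentralSeries (e + 1), M⁆, M⁆ ≤ K := by
      rw [← Subgroup.lowerCentralSeries_succ, ← Subgroup.lowerCentralSeries_succ, ← he]
      exact hc1
    have h2 : ⁅⁅M, M⁆, M.lowerCentralSeries (e + 1)⁆ ≤ K := by
      apply three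
      · rw [Subgroup.commutator_comm M]
        exact hc3
      · exact hc3
    have h3 := h (M.lowerCentralSeries (e + 1)) inferInstance hA2 (by
      refine le_trans ?_ h2
      exact Subgroup.commutator_mono hA1 le_rfl)
    rw [← Subgroup.lowerCentralSeries_succ] at h3
    exact Nat.find_min hnil (show e + 2 < Nat.find hnil by rw [← hc]; omega) h3

/-- the kernel of a module -/
def kerMod (V : Type) [AddCommGroup V] [Module (MonoidAlgebra k G) V] : Subgroup G where
  carrier := {g | ∀ v : V, of k G g • v = v}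
  one_mem' := fun v => of_one_smul v
  mul_mem' := fun {a b} ha hb v => by rw [of_mul_smul, hb, ha]
  inv_mem' := fun {a} ha v => by
    have := ha (of k G a⁻¹ • v)
    rw [← of_mul_smul, mul_inv_cancel, of_one_smul] at this
    exact this.symm

lemma mem_kerMod (V : Type) [AddCommGroup V] [Module (MonoidAlgebra k G) V] (g : G) :
    g ∈ kerMod (k := k) V ↔ ∀ v : V, of k G g • v = v := Iff.rfl

instance (V : Type) [AddCommGroup V] [Module (MonoidAlgebra k G) V] :
    (kerMod (k := k) (G := G) V).Normal where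
  conj_mem := fun n hn g v => by
    rw [of_mul_smul, of_mul_smul, hn, ← of_mul_smul, mul_inv_cancel, of_one_smul]

/-- The step: if the normal nilpotent `p'`-subgroup `M` acts trivially on all simple modules
of dimension less than `f`, then `M''` acts trivially on all modules of dimension at most `f`. -/
theorem step [IsAlgClosed k] (M : Subgroup G) [M.Normal]
    (hnil : ∃ c, M.lowerCentralSeries c = ⊥)
    (hM : ∀ h ∈ M, ∃ n : ℕ, (n : k) ≠ 0 ∧ h ^ n = 1)
    (f : ℕ) (hf : SimpleTriv k M f) (V : Type) [AddCommGroup V] [Module k V]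
    [Module (MonoidAlgebra k G) V]
    [IsScalarTower k (MonoidAlgebra k G) V] [FiniteDimensional k V]
    (hV : Module.finrank k V ≤ f) : Triv (k := k) ⁅⁅M, M⁆, ⁅M, M⁆⁆ V := by
  have key : ⁅⁅M, M⁆, ⁅M, M⁆⁆ ≤ kerMod (k := k) V := by
    apply second_commutator_le
    · obtain ⟨c, hc⟩ := hnil
      exact ⟨c, by rw [hc]; exact bot_le⟩
    · intro A hA hAM hAA
      have h1 := comm_triv (V := V) A M (fun a ha => hM a (hAM ha)) (by
        intro a ha b hb v
        have h2 : ⁅a, b⁆ ∈ kerMod (k := k) V := hAA (Subgroup.commutator_mem_commutator ha hb)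
        have h3 : a * b = ⁅a, b⁆ * (b * a) := by
          rw [commutatorElement_def]; group
        rw [h3, of_mul_smul]
        exact h2 _) hM f hf hV
      rw [Subgroup.commutator_le]
      intro a ha m hm v
      have h2 := h1 a⁻¹ (inv_mem ha) m⁻¹ (inv_mem hm) v
      rw [inv_inv] at h2
      rw [commutatorElement_def, show a * m * a⁻¹ * m⁻¹ = a * (m * a⁻¹ * m⁻¹) by group,
        of_mul_smul, h2, ← of_mul_smul, mul_inv_cancel, of_one_smul]
  exact fun h hh v => key hh v

/-- one-dimensional modules -/
theorem comm_triv_one (N : Subgroup G) (V : Type) [AddCommGroup V] [Module k V]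
    [Module (MonoidAlgebra k G) V]
    [IsScalarTower k (MonoidAlgebra k G) V]
    (hV : Module.finrank k V = 1) : Triv (k := k) ⁅N, N⁆ V := by
  have key : ⁅N, N⁆ ≤ kerMod (k := k) V := by
    rw [Subgroup.commutator_le]
    intro a _ b _ v
    obtain ⟨v0, hv0, hspan⟩ := finrank_eq_one_iff'.mp hV
    obtain ⟨ca, hca⟩ := hspan (of k G a • v0)
    obtain ⟨cb, hcb⟩ := hspan (of k G b • v0)
    have ha : ∀ w : V, of k G a • w = ca • w := by
      intro w
      obtain ⟨c, rfl⟩ := hspan w
      have := (act k V a).map_smul c v0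
      rw [act_apply, act_apply, ← hca] at this
      rw [this, smul_comm]
    have hb : ∀ w : V, of k G b • w = cb • w := by
      intro w
      obtain ⟨c, rfl⟩ := hspan w
      have := (act k V b).map_smul c v0
      rw [act_apply, act_apply, ← hcb] at this
      rw [this, smul_comm]
    have hab : ∀ w : V, of k G (a * b) • w = of k G (b * a) • w := by
      intro w
      rw [of_mul_smul, of_mul_smul, ha, hb, ha, hb, smul_comm]
    have h3 : ⁅a, b⁆ = (a * b) * (b * a)⁻¹ := by
      rw [commutatorElement_def]; group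
    rw [h3, of_mul_smul, hab, ← of_mul_smul, mul_inv_cancel, of_one_smul]
  exact fun h hh v => key hh v

/-- derived series of a subgroup, as subgroups of the group -/
def D (N : Subgroup G) : ℕ → Subgroup G
  | 0 => N
  | t + 1 => ⁅D N t, D N t⁆

instance D_normal (N : Subgroup G) [N.Normal] (t : ℕ) : (D N t).Normal := by
  induction t with
  | zero => exact ‹N.Normal›
  | succ t ih => exact Subgroup.commutator_normal _ _

lemma D_succ_le (N : Subgroup G) [N.Normal] (t : ℕ) : D N (t + 1) ≤ D N t :=
  Subgroup.commutator_le_left _ _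

lemma D_antitone (N : Subgroup G) [N.Normal] : Antitone (D N) :=
  antitone_nat_of_succ_le (D_succ_le N)

lemma D_nil (N : Subgroup G) [N.Normal] (hnil : ∃ c, N.lowerCentralSeries c = ⊥) (t : ℕ) :
    ∃ c, (D N t).lowerCentralSeries c = ⊥ := by
  obtain ⟨c, hc⟩ := hnil
  refine ⟨c, ?_⟩
  rw [eq_bot_iff, ← hc]
  clear hc
  induction c with
  | zero => exact D_antitone N (Nat.zero_le t)
  | succ c ih => exact Subgroup.commutator_mono ih (D_antitone N (Nat.zero_le t))

lemma D_map (N : Subgroup G) (t : ℕ) : (derivedSeries N t).map N.subtype = D N t := by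
  induction t with
  | zero =>
    rw [derivedSeries_zero, ← MonoidHom.range_eq_map, Subgroup.range_subtype]; rfl
  | succ t ih => rw [derivedSeries_succ, Subgroup.map_commutator, ih]; rfl

/-- The set of dimensions of the simple `k[G]`-modules. -/
def simpleDims (k G : Type) [Field k] [Group G] : Set ℕ :=
  {d : ℕ | ∃ (M : Type) (_ : AddCommGroup M) (_ : Module k M)
    (_ : Module (MonoidAlgebra k G) M) (_ : IsScalarTower k (MonoidAlgebra k G) M),
    IsSimpleModule (MonoidAlgebra k G) M ∧ Module.finrank k M = d}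

/-- simple modules are quotients of the regular module -/
lemma simple_surj (X : Type) [AddCommGroup X] [Module k X] [Module (MonoidAlgebra k G) X]
    [IsScalarTower k (MonoidAlgebra k G) X] (hX : IsSimpleModule (MonoidAlgebra k G) X) :
    ∃ φ : MonoidAlgebra k G →ₗ[k] X, Function.Surjective φ := by
  have := IsSimpleModule.nontrivial (MonoidAlgebra k G) X
  obtain ⟨x, hx⟩ := exists_ne (0 : X)
  refine ⟨(LinearMap.toSpanSingleton (MonoidAlgebra k G) X x).restrictScalars k, ?_⟩
  exact IsSimpleModule.toSpanSingleton_surjective _ hx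

lemma simple_fd [Finite G] (X : Type) [AddCommGroup X] [Module k X]
    [Module (MonoidAlgebra k G) X]
    [IsScalarTower k (MonoidAlgebra k G) X] (hX : IsSimpleModule (MonoidAlgebra k G) X) :
    FiniteDimensional k X ∧ Module.finrank k X ≤ Module.finrank k (MonoidAlgebra k G) ∧
      1 ≤ Module.finrank k X := by
  obtain ⟨φ, hφ⟩ := simple_surj X hX
  have h1 : FiniteDimensional k X := Module.Finite.of_surjective φ hφ
  have := IsSimpleModule.nontrivial (MonoidAlgebra k G) X
  refine ⟨h1, ?_, Module.finrank_pos⟩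
  exact LinearMap.finrank_le_finrank_of_surjective hφ

end Pool.Agent.H58_bda8f3
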