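import Pool.Agent.H58_bda8f3.Basic

set_option autoImplicit false

namespace Pool.Agent.H58_bda8f3

open MonoidAlgebra

variable {k G : Type} [Field k] [Group G]

section
variable (k) {V : Type} [AddCommGroup V] [Module k V] [Module (MonoidAlgebra k G) V]
  [IsScalarTower k (MonoidAlgebra k G) V]

/-- the action of a group element as a linear map -/
noncomputable def act (V : Type) [AddCommGroup V] [Module k V] [Module (MonoidAlgebra k G) V]
    [IsScalarTower k (MonoidAlgebra k G) V] (g : G) : Module.End k V :=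
  Algebra.lsmul k k V (of k G g)

lemma act_apply (g : G) (v : V) : act k V g v = of k G g • v := rfl

lemma act_mul (g h : G) : act k V (g * h) = act k V g * act k V h := by
  unfold act
  rw [map_mul, map_mul]

lemma act_one : act k V (1 : G) = 1 := by
  unfold act
  rw [map_one, map_one]

lemma act_pow (g : G) (n : ℕ) : act k V (g ^ n) = act k V g ^ n := by
  unfold act
  rw [map_pow, map_pow]

lemma act_injective (g : G) : Function.Injective (act k V g) := by
  intro v w h
  have h2 := congrArg (act k V g⁻¹) h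
  rw [← Module.End.mul_apply, ← Module.End.mul_apply, ← act_mul, inv_mul_cancel, act_one] at h2
  exact h2

lemma act_semisimple (g : G) (n : ℕ) (hn : (n : k) ≠ 0) (hg : g ^ n = 1) :
    (act k V g).IsSemisimple := by
  refine Module.End.isSemisimple_of_squarefree_aeval_eq_zero (p := Polynomial.X ^ n - 1) ?_ ?_
  · exact (Polynomial.X_pow_sub_one_separable_iff.mpr hn).squarefree
  · rw [map_sub, map_pow, Polynomial.aeval_X, map_one, ← act_pow, hg, act_one, sub_self]

/-- joint (generalised) weight space -/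
noncomputable def wt (V : Type) [AddCommGroup V] [Module k V] [Module (MonoidAlgebra k G) V]
    [IsScalarTower k (MonoidAlgebra k G) V] (A : Subgroup G) (χ : A → k) : Submodule k V :=
  ⨅ a : A, (act k V (a : G)).maxGenEigenspace (χ a)

variable {k}

lemma mem_wt (A : Subgroup G) (hA : ∀ a ∈ A, ∃ n : ℕ, (n : k) ≠ 0 ∧ a ^ n = 1) (χ : A → k)
    (v : V) : v ∈ wt k V A χ ↔ ∀ a : A, of k G (a : G) • v = χ a • v := by
  unfold wt
  rw [Submodule.mem_iInf]
  refine forall_congr' fun a => ?_
  obtain ⟨n, hn, hn1⟩ := hA a a.2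
  rw [(act_semisimple k (V := V) (a : G) n hn hn1).isFinitelySemisimple.maxGenEigenspace_eq_eigenspace,
    Module.End.mem_eigenspace_iff]
  rfl

theorem comm_triv [IsAlgClosed k] [FiniteDimensional k V] (A M : Subgroup G) [A.Normal]
    (hA : ∀ a ∈ A, ∃ n : ℕ, (n : k) ≠ 0 ∧ a ^ n = 1)
    (hcomm : ∀ a ∈ A, ∀ b ∈ A, ∀ v : V, of k G (a * b) • v = of k G (b * a) • v)
    (hM : ∀ h ∈ M, ∃ n : ℕ, (n : k) ≠ 0 ∧ h ^ n = 1)
    (f : ℕ) (hf : SimpleTriv k M f) (hV : Module.finrank k V ≤ f) :
    ∀ a ∈ A, ∀ m ∈ M, ∀ v : V, of k G (m⁻¹ * a * m) • v = of k G a • v := by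
  classical
  have hC : ∀ a b : A, Commute (act k V (a : G)) (act k V (b : G)) := by
    intro a b
    apply LinearMap.ext
    intro v
    rw [← act_mul, ← act_mul]
    exact hcomm a a.2 b b.2 v
  have htop : ⨆ χ : A → k, wt k V A χ = ⊤ :=
    Module.End.iSup_iInf_maxGenEigenspace_eq_top_of_iSup_maxGenEigenspace_eq_top_of_commute
      (fun a : A => act k V (a : G)) (fun a b _ => hC a b)
      (fun a => Module.End.iSup_maxGenEigenspace_eq_top _)
  have hind : iSupIndep (fun χ : A → k => wt k V A χ) := by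
    refine Module.End.independent_iInf_maxGenEigenspace_of_forall_mapsTo
      (fun a : A => act k V (a : G)) ?_
    intro a b φ
    exact Module.End.mapsTo_maxGenEigenspace_of_comm (hC b a) φ
  -- the action on weights
  have hmove : ∀ (g : G) (χ : A → k) (v : V), v ∈ wt k V A χ →
      act k V g v ∈ wt k V A (fun a => χ (MulAut.conjNormal g⁻¹ a)) := by
    intro g χ v hv
    rw [mem_wt A hA] at hv ⊢
    intro a
    have h1 := hv (MulAut.conjNormal g⁻¹ a)
    rw [act_apply, ← of_mul_smul]
    have h2 : (a : G) * g = g * ((MulAut.conjNormal g⁻¹ a : A) : G) := by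
      rw [MulAut.conjNormal_apply, inv_inv]; group
    rw [h2, of_mul_smul, h1]
    exact (act k V g).map_smul _ _
  let Ω := {χ : A → k // wt k V A χ ≠ ⊥}
  have hfin : Finite Ω := WellFoundedGT.finite_ne_bot_of_iSupIndep hind
  let _ := Fintype.ofFinite Ω
  have hcard : Nat.card Ω ≤ f := by
    rw [Nat.card_eq_fintype_card]
    exact (hind.subtype_ne_bot_le_finrank).trans hV
  let _ : MulAction G Ω :=
    { smul := fun g χ => ⟨fun a => χ.1 (MulAut.conjNormal g⁻¹ a), by
        obtain ⟨v, hv, hv0⟩ := Submodule.exists_mem_ne_zero_of_ne_bot χ.2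
        intro hbot
        have := hmove g χ.1 v hv
        rw [hbot, Submodule.mem_bot] at this
        exact hv0 (act_injective k g (this.trans (map_zero _).symm))⟩
      one_smul := fun χ => by
        apply Subtype.ext
        funext a
        show χ.1 (MulAut.conjNormal (1 : G)⁻¹ a) = χ.1 a
        rw [inv_one, map_one]; rfl
      mul_smul := fun g h χ => by
        apply Subtype.ext
        funext a
        show χ.1 (MulAut.conjNormal (g * h)⁻¹ a) =
          χ.1 (MulAut.conjNormal h⁻¹ (MulAut.conjNormal g⁻¹ a))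
        rw [mul_inv_rev, map_mul]; rfl }
  have hfix := triv_perm M hM f hf Ω hcard
  intro a ha m hm
  have key : (⊤ : Submodule k V) ≤ LinearMap.eqLocus (act k V (m⁻¹ * a * m)) (act k V a) := by
    rw [← htop]
    refine iSup_le fun χ => ?_
    by_cases hχ : wt k V A χ = ⊥
    · rw [hχ]; exact bot_le
    · intro v hv
      rw [LinearMap.mem_eqLocus]
      have h1 := (mem_wt A hA χ v).mp hv
      have h2 := hfix m hm ⟨χ, hχ⟩
      have h3 := congrFun (congrArg Subtype.val h2) ⟨a, ha⟩
      have h3' : χ (MulAut.conjNormal m⁻¹ ⟨a, ha⟩) = χ ⟨a, ha⟩ := h3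
      have h4 := h1 (MulAut.conjNormal m⁻¹ ⟨a, ha⟩)
      have h5 := h1 ⟨a, ha⟩
      rw [MulAut.conjNormal_apply, inv_inv, h3'] at h4
      exact h4.trans h5.symm
  intro v
  exact key (Submodule.mem_top : v ∈ (⊤ : Submodule k V))

end

end Pool.Agent.H58_bda8f3
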